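import Mathlib
import Pool.Agent.H.MP_1da119_pr.A

namespace Pool.Agent.Results.MP_1da119_pr.Diverge

open MeasureTheory Filter Topology

/-- The target weight: `j⁻²` on the stair, `0` off it. -/
noncomputable def wt (x : ℕ × ℕ) : ℝ :=
  if 1 ≤ x.2 ∧ (x.1 = x.2 ∨ x.1 = x.2 + 1) then 1 / (x.2 : ℝ) ^ 2 else 0

/-- One step with parameter `a`, driven by two numbers in `[0,1]`. -/
noncomputable def step (a : ℝ) (x : ℕ × ℕ) (u : unitInterval × unitInterval) : ℕ × ℕ :=
  let y : ℕ × ℕ :=
    if (u.1 : ℝ) < 1 / 2 + 4 / a then (if x.1 = x.2 then (x.1 + 1, x.2) else (x.1, x.2 + 1))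
    else (if x.1 = x.2 then (x.1, x.2 - 1) else (x.1 - 1, x.2))
  if (u.2 : ℝ) < wt y / (wt y + wt x) then y else x

/-- The walk. -/
noncomputable def walk (a : ℕ → ℝ) (ω : ℕ → unitInterval × unitInterval) : ℕ → ℕ × ℕ
  | 0 => (1, 1)
  | t + 1 => step (a (t + 1)) (walk a ω t) (ω t)

open Pool.Agent.H.MP_1da119_pr

def pos (p : ℕ) : ℕ × ℕ := ((p + 1) / 2 + 1, p / 2 + 1)

noncomputable def W (p : ℕ) : ℝ := 1 / ((p / 2 + 1 : ℕ) : ℝ) ^ 2

lemma W_pos (p : ℕ) : 0 < W p := by unfold W; positivity

lemma wt_pos (p : ℕ) : wt (pos p) = W p := by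
  unfold wt pos W
  rw [if_pos (by omega)]

noncomputable def A (p : ℕ) : ℝ := W (p + 1) / (W (p + 1) + W p)

noncomputable def B (p : ℕ) : ℝ := if p = 0 then 0 else W (p - 1) / (W (p - 1) + W p)

lemma step_pos (k p : ℕ) (u) : step (8 + k) (pos p) u = pos (up A B k p u) := by
  have f : (if (pos p).1 = (pos p).2 then ((pos p).1 + 1, (pos p).2)
      else ((pos p).1, (pos p).2 + 1)) = pos (p + 1) := by
    simp only [pos]
    split_ifs <;> ext <;> simp only <;> omega
  unfold step up two
  simp only [f]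
  by_cases h1 : (u.1 : ℝ) < 1 / 2 + 4 / (8 + k)
  · simp only [h1, if_true, wt_pos, A, apply_ite pos]
    congr
  · rcases p with _ | p
    · have : wt (1, 0) = 0 := by simp [wt]
      simp only [h1, if_false]
      simp [pos, B, this, not_lt.mpr u.2.2.1]
    · have g : (if (pos (p + 1)).1 = (pos (p + 1)).2 then ((pos (p + 1)).1, (pos (p + 1)).2 - 1)
          else ((pos (p + 1)).1 - 1, (pos (p + 1)).2)) = pos p := by
        simp only [pos]
        split_ifs <;> ext <;> simp only <;> omega
      simp only [h1, if_false, g, wt_pos, B, apply_ite pos, Nat.add_sub_cancel,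
        Nat.succ_ne_zero]

lemma lim : Tendsto (fun p => B p / A p) atTop (𝓝 1) := by
  have h0 : Tendsto (fun p : ℕ => ((p / 2 + 1 : ℕ) : ℝ)) atTop atTop := by
    refine tendsto_natCast_atTop_atTop.comp (tendsto_atTop.mpr fun n => ?_)
    filter_upwards [eventually_ge_atTop (2 * n)] with t ht
    omega
  have h1 : Tendsto (fun p : ℕ => (((p + 1) / 2 + 1 : ℕ) : ℝ) / ((p / 2 + 1 : ℕ) : ℝ))
      atTop (𝓝 1) := by
    have h2 := (tendsto_inv_atTop_zero.comp h0).const_add 1
    rw [add_zero] at h2
    refine tendsto_of_tendsto_of_tendsto_of_le_of_le tendsto_const_nhds h2 (fun p => ?_)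
      (fun p => ?_)
    · have : p / 2 + 1 ≤ (p + 1) / 2 + 1 := by omega
      rw [one_le_div (by positivity)]
      exact Nat.cast_le.mpr this
    · simp only [Function.comp]
      rw [div_le_iff₀ (by positivity), add_mul, one_mul, inv_mul_cancel₀ (by positivity)]
      exact_mod_cast (by omega)
  have h3 : Tendsto (fun p => W p / W (p + 1)) atTop (𝓝 1) := by
    have := h1.pow 2
    rw [one_pow] at this
    refine this.congr fun p => ?_
    unfold W
    field_simp
  have h4 : Tendsto A atTop (𝓝 (1 / 2)) := by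
    have := (h3.const_add 1).inv₀ (by norm_num)
    rw [show ((1 : ℝ) + 1)⁻¹ = 1 / 2 by norm_num] at this
    refine this.congr fun p => ?_
    have := W_pos p
    have := W_pos (p + 1)
    unfold A
    field_simp
  rw [← tendsto_add_atTop_iff_nat 1]
  have h5 := (h4.const_sub 1).div ((tendsto_add_atTop_iff_nat 1).mpr h4) (by norm_num)
  rw [show ((1 : ℝ) - 1 / 2) / (1 / 2) = 1 by norm_num] at h5
  refine h5.congr fun p => ?_
  simp only [Pi.div_apply]
  congr 1
  have := W_pos p
  have := W_pos (p + 1)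
  simp only [A, B, Nat.succ_ne_zero, if_false, Nat.add_sub_cancel]
  field_simp
  ring

theorem result : ∃ a : ℕ → ℝ, Monotone a ∧ (∀ t, 8 ≤ a t) ∧ Tendsto a atTop atTop ∧
    Measure.infinitePi (fun _ : ℕ => (volume : Measure unitInterval).prod
      (volume : Measure unitInterval))
      {ω | Tendsto (fun t => (walk a ω t).2) atTop atTop} = 1 := by
  obtain ⟨k, h1, h2, h3⟩ := diverge A B (fun p => by
    have := W_pos p
    have := W_pos (p + 1)
    unfold A
    exact ⟨by positivity, by rw [div_le_one (by positivity)]; linarith⟩) (fun p => by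
    have := W_pos p
    have := W_pos (p - 1)
    unfold B
    split_ifs
    · norm_num
    · exact ⟨by positivity, by rw [div_le_one (by positivity)]; linarith⟩) lim
  refine ⟨fun t => 8 + k t, fun s t h => ?_, fun t => ?_, ?_, ?_⟩
  · have : (k s : ℝ) ≤ k t := by exact_mod_cast h1 h
    linarith
  · have : (0 : ℝ) ≤ k t := Nat.cast_nonneg _
    linarith
  · exact tendsto_atTop_add_const_left _ _ (tendsto_natCast_atTop_atTop.comp h2)
  · have e : ∀ ω t, walk (fun t => 8 + k t) ω t = pos (Y (fun t => up A B (k t)) ω t) := by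
      intro ω t
      induction t with
      | zero => simp [walk, Y, pos]
      | succ t ih => simp only [walk, Y, ih, step_pos]
    have : ∀ᵐ ω ∂P, ω ∈ {ω | Tendsto (fun t => (walk (fun t => 8 + k t) ω t).2) atTop atTop} := by
      filter_upwards [h3] with ω hω
      simp only [e, pos]
      refine tendsto_atTop.mpr fun n => ?_
      filter_upwards [hω.eventually_ge_atTop (2 * n)] with t ht
      omega
    rw [← measure_univ (μ := P)]
    exact measure_congr (ae_eq_univ.mpr this)

end Pool.Agent.Results.MP_1da119_pr.Diverge
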