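import Mathlib
import Pool.Agent.H.MP_1da119_pr.A

namespace Pool.Agent.Results.MP_1da119_pr.Literal

open MeasureTheory Filter Topology

/-- The target weight: `j⁻²` on the stair, `0` off it. -/
noncomputable def wt (x : ℕ × ℕ) : ℝ :=
  if 1 ≤ x.2 ∧ (x.1 = x.2 ∨ x.1 = x.2 + 1) then 1 / (x.2 : ℝ) ^ 2 else 0

/-- One step with parameter `a`, driven by two numbers in `[0,1]`. -/
noncomputable def step (a : ℝ) (x : ℕ × ℕ) (u : unitInterval × unitInterval) : ℕ × ℕ :=
  let y : ℕ × ℕ :=
    if x.1 = x.2 then (if (u.1 : ℝ) < 1 / 2 + 4 / a then (x.1 + 1, x.2) else (x.1, x.2 - 1))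
    else (if (u.1 : ℝ) < 1 / 2 + 4 / a then (x.1 - 1, x.2) else (x.1, x.2 + 1))
  if (u.2 : ℝ) < wt y / (wt y + wt x) then y else x

/-- The walk. -/
noncomputable def walk (a : ℕ → ℝ) (ω : ℕ → unitInterval × unitInterval) : ℕ → ℕ × ℕ
  | 0 => (1, 1)
  | t + 1 => step (a (t + 1)) (walk a ω t) (ω t)

open Pool.Agent.H.MP_1da119_pr ENNReal

def pos (p : ℕ) : ℕ × ℕ := ((p + 1) / 2 + 1, p / 2 + 1)

noncomputable def W (p : ℕ) : ℝ := 1 / ((p / 2 + 1 : ℕ) : ℝ) ^ 2

lemma W_pos (p : ℕ) : 0 < W p := by unfold W; positivity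

lemma wt_pos (p : ℕ) : wt (pos p) = W p := by
  unfold wt pos W
  rw [if_pos (by omega)]

noncomputable def A (p : ℕ) : ℝ := W (p + 1) / (W (p + 1) + W p)

noncomputable def B (p : ℕ) : ℝ := if p = 0 then 0 else W (p - 1) / (W (p - 1) + W p)

lemma hA (p : ℕ) : 0 ≤ A p ∧ A p ≤ 1 := by
  have := W_pos p
  have := W_pos (p + 1)
  unfold A
  exact ⟨by positivity, by rw [div_le_one (by positivity)]; linarith⟩

lemma hB (p : ℕ) : 0 ≤ B p ∧ B p ≤ 1 := by
  have := W_pos p
  have := W_pos (p - 1)
  unfold B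
  split_ifs
  · norm_num
  · exact ⟨by positivity, by rw [div_le_one (by positivity)]; linarith⟩

noncomputable def lit (a : ℝ) (p : ℕ) : U → ℕ :=
  if p % 2 = 0 then two (1 / 2 + 4 / a) (A p) (B p) p (p + 1) (p - 1)
  else two (1 / 2 + 4 / a) (B p) (A p) p (p - 1) (p + 1)

lemma step_pos (a : ℝ) (p : ℕ) (u) : step a (pos p) u = pos (lit a p u) := by
  unfold step lit two
  by_cases hp : p % 2 = 0
  · have e : (pos p).1 = (pos p).2 := by simp only [pos]; omega
    have f : ((pos p).1 + 1, (pos p).2) = pos (p + 1) := by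
      simp only [pos]; ext <;> simp only <;> omega
    simp only [if_pos e, if_pos hp, f]
    by_cases h1 : (u.1 : ℝ) < 1 / 2 + 4 / a
    · simp only [h1, if_true, wt_pos, A, apply_ite pos]
      congr
    · simp only [h1, if_false]
      by_cases h0 : p = 0
      · have : wt (1, 0) = 0 := by simp [wt]
        simp [h0, pos, B, this, not_lt.mpr u.2.2.1]
      · have g : ((pos p).1, (pos p).2 - 1) = pos (p - 1) := by
          simp only [pos]; ext <;> simp only <;> omega
        simp only [g, wt_pos, B, apply_ite pos, h0, if_false]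
  · have e : ¬ (pos p).1 = (pos p).2 := by simp only [pos]; omega
    have f : ((pos p).1, (pos p).2 + 1) = pos (p + 1) := by
      simp only [pos]; ext <;> simp only <;> omega
    have g : ((pos p).1 - 1, (pos p).2) = pos (p - 1) := by
      simp only [pos]; ext <;> simp only <;> omega
    have h0 : p ≠ 0 := by omega
    simp only [if_neg e, if_neg hp, f, g]
    by_cases h1 : (u.1 : ℝ) < 1 / 2 + 4 / a
    · simp only [h1, if_true, wt_pos, B, apply_ite pos, h0, if_false]
    · simp only [h1, if_false, wt_pos, A, apply_ite pos]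
      congr

lemma lit_meas (a : ℝ) (p : ℕ) : Measurable (lit a p) := by
  unfold lit
  split_ifs <;> exact two_meas _ _ _ _ _ _

/-- probability of proposing the upward move at `p` -/
noncomputable def al (a : ℝ) (p : ℕ) : ℝ := if p % 2 = 0 then 1 / 2 + 4 / a else 1 - (1 / 2 + 4 / a)

lemma hal0 (a : ℝ) (ha : 8 ≤ a) : 0 ≤ 1 / 2 + 4 / a ∧ 1 / 2 + 4 / a ≤ 1 := by
  have h0 : 0 < a := by linarith
  have : 4 / a ≤ 1 / 2 := by rw [div_le_iff₀ h0]; linarith
  exact ⟨by positivity, by linarith⟩

lemma hal (a : ℝ) (ha : 8 ≤ a) (p : ℕ) : 0 ≤ al a p ∧ al a p ≤ 1 := by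
  have := hal0 a ha
  unfold al
  split_ifs <;> constructor <;> linarith

lemma al_succ (a : ℝ) (p : ℕ) : al a (p + 1) = 1 - al a p := by
  unfold al
  split_ifs <;> first | omega | ring

noncomputable def ker (a : ℝ) (h : ℕ → ℝ) (p : ℕ) : ℝ :=
  al a p * (A p * h (p + 1) + (1 - A p) * h p) + (1 - al a p) * (B p * h (p - 1) + (1 - B p) * h p)

lemma K_lit (a : ℝ) (ha : 8 ≤ a) (h : ℕ → ℝ) (hh : ∀ p, 0 ≤ h p) (p : ℕ) :
    K (lit a) (fun q => .ofReal (h q)) p = .ofReal (ker a h p) := by
  unfold K lit ker al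
  split_ifs
  · exact two_int _ _ _ (hal0 a ha) (hA p) (hB p) _ _ _ h hh
  · rw [two_int _ _ _ (hal0 a ha) (hB p) (hA p) _ _ _ h hh]
    congr 1
    ring

lemma ker_nonneg (a : ℝ) (ha : 8 ≤ a) (h : ℕ → ℝ) (hh : ∀ p, 0 ≤ h p) (p : ℕ) :
    0 ≤ ker a h p := by
  have := (hal a ha p).1
  have := sub_nonneg.mpr (hal a ha p).2
  have := (hA p).1
  have := sub_nonneg.mpr (hA p).2
  have := (hB p).1
  have := sub_nonneg.mpr (hB p).2
  have := hh p
  have := hh (p + 1)
  have := hh (p - 1)
  unfold ker
  positivity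

lemma bal (p : ℕ) : W p * A p = W (p + 1) * B (p + 1) := by
  have := W_pos p
  have := W_pos (p + 1)
  simp only [A, B, Nat.succ_ne_zero, if_false, Nat.add_sub_cancel]
  field_simp
  ring

lemma inv (a : ℝ) (h : ℕ → ℝ) (n : ℕ) :
    ∑ p ∈ Finset.range (n + 1), W p * ker a h p =
      ∑ p ∈ Finset.range (n + 1), W p * h p + W n * al a n * A n * (h (n + 1) - h n) := by
  induction n with
  | zero => simp [ker, B]; ring
  | succ n ih =>
    rw [Finset.sum_range_succ, ih, Finset.sum_range_succ _ (n + 1)]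
    have := bal n
    simp only [ker, Nat.add_sub_cancel, al_succ]
    linear_combination (al a n * (h (n + 1) - h n)) * this

theorem result (a : ℕ → ℝ) (ha : ∀ t, 8 ≤ a t) :
    Measure.infinitePi (fun _ : ℕ => (volume : Measure unitInterval).prod
      (volume : Measure unitInterval))
      {ω | Tendsto (fun t => (walk a ω t).2) atTop atTop} = 0 := by
  let sg : ℕ → ℕ → U → ℕ := fun t => lit (a t)
  have hm : ∀ t p, Measurable (sg t p) := fun t p => lit_meas _ _
  have e : ∀ ω t, walk a ω t = pos (Y sg ω t) := by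
    intro ω t
    induction t with
    | zero => simp [walk, Y, pos]
    | succ t ih => simp only [walk, Y, ih, step_pos, sg]
  have key : ∀ t (h : ℕ → ℝ) (n : ℕ), (∀ p, 0 ≤ h p) → (∀ p, n ≤ p → h p = 0) →
      ∫⁻ ω, .ofReal (h (Y sg ω t)) ∂P ≤ .ofReal (∑ p ∈ Finset.range (n + 1), W p * h p) := by
    intro t
    induction t with
    | zero =>
      intro h n h0 _
      simp only [Y, lintegral_const, measure_univ, mul_one]
      refine ofReal_le_ofReal ?_
      have := Finset.single_le_sum (f := fun p => W p * h p) (s := Finset.range (n + 1))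
        (fun p _ => mul_nonneg (W_pos p).le (h0 p)) (Finset.mem_range.mpr (Nat.succ_pos n))
      simpa [W] using this
    | succ t ih =>
      intro h n h0 h1
      rw [markov sg hm t fun q => .ofReal (h q)]
      simp only [sg, K_lit _ (ha _) h h0]
      refine (ih _ (n + 1) (ker_nonneg _ (ha _) h h0) fun p hp => ?_).trans (le_of_eq ?_)
      · simp [ker, h1 p (by omega), h1 (p + 1) (by omega), h1 (p - 1) (by omega)]
      · rw [inv, Finset.sum_range_succ, h1 (n + 1) (by omega), h1 (n + 1 + 1) (by omega)]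
        simp
  have hY : ∀ ω t, Y sg ω t ≤ t := by
    intro ω t
    induction t with
    | zero => exact le_rfl
    | succ t ih =>
      simp only [Y, sg, lit] at ih ⊢
      split_ifs <;> unfold two <;> split_ifs <;> omega
  have hW : Summable W := by
    have h1 : Summable fun n : ℕ => 1 / ((n + 1 : ℕ) : ℝ) ^ 2 :=
      (summable_nat_add_iff (f := fun n : ℕ => 1 / (n : ℝ) ^ 2) 1).mpr
        (Real.summable_one_div_nat_pow.mpr (by norm_num))
    refine Summable.even_add_odd (h1.congr fun n => ?_) (h1.congr fun n => ?_)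
    · rw [W, show 2 * n / 2 = n by omega]
    · rw [W, show (2 * n + 1) / 2 = n by omega]
  have tail : ∀ t n, P {ω | n ≤ Y sg ω t} ≤ .ofReal (∑' q, W (q + n)) := by
    intro t n
    have h1 := key t (fun p => if n ≤ p ∧ p ≤ t then 1 else 0) (t + 1)
      (fun p => by positivity) (fun p hp => if_neg (by omega))
    refine le_trans (le_of_eq ?_) (h1.trans (ofReal_le_ofReal ?_))
    · rw [← one_mul (P _), ← lintegral_indicator_const
        (measurableSet_le measurable_const (Y_meas sg hm t))]
      refine lintegral_congr fun ω => ?_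
      simp only [Set.indicator, Set.mem_ofPred_eq, hY ω t, and_true]
      split_ifs <;> simp
    · have h2 := hW.sum_add_tsum_nat_add n
      have h3 := hW.sum_le_tsum (Finset.range (n + (t + 2))) fun q _ => (W_pos q).le
      have h4 : ∑ p ∈ Finset.range (t + 1 + 1), W p * (if n ≤ p ∧ p ≤ t then 1 else 0) +
          ∑ p ∈ Finset.range n, W p ≤ ∑ p ∈ Finset.range (n + (t + 2)), W p := by
        simp only [mul_ite, mul_one, mul_zero]
        rw [← Finset.sum_filter, ← Finset.sum_union]
        · refine Finset.sum_le_sum_of_subset_of_nonneg (fun p hp => ?_) fun q _ _ => (W_pos q).le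
          simp only [Finset.mem_union, Finset.mem_filter, Finset.mem_range] at hp ⊢
          omega
        · rw [Finset.disjoint_left]
          intro p hp hq
          simp only [Finset.mem_filter, Finset.mem_range] at hp hq
          omega
      linarith
  have h0 : Tendsto (fun n => ENNReal.ofReal (∑' q, W (q + n))) atTop (𝓝 0) := by
    simpa using ENNReal.tendsto_ofReal (_root_.tendsto_sum_nat_add W)
  refine le_antisymm (ge_of_tendsto' h0 fun n => ?_) zero_le
  have hsub : {ω | Tendsto (fun t => (walk a ω t).2) atTop atTop} ⊆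
      ⋃ T, {ω | ∀ t, T ≤ t → n ≤ Y sg ω t} := by
    intro ω hω
    obtain ⟨T, hT⟩ := eventually_atTop.mp (Tendsto.eventually_ge_atTop hω (n + 1))
    refine Set.mem_iUnion.mpr ⟨T, fun t ht => ?_⟩
    have := hT t ht
    simp only [e, pos] at this
    omega
  refine (measure_mono hsub).trans ?_
  have hmo : Monotone fun T => {ω | ∀ t, T ≤ t → n ≤ Y sg ω t} :=
    fun S T hST ω hω t ht => hω t (hST.trans ht)
  rw [hmo.measure_iUnion]
  refine iSup_le fun T => le_trans (measure_mono fun ω hω => ?_) (tail T n)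
  exact hω T le_rfl

end Pool.Agent.Results.MP_1da119_pr.Literal
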